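import Mathlib
import Pool.Agent.R500.MH.Few
import Pool.Agent.R500.MH.Final
import Pool.Agent.R500.MH.Special

set_option autoImplicit false

/-!
# Decimal repunits: decimal expansions with finitely many prime values

For real `β > 0` and a prime `p` let `W β p` be the `p`-rough part (the product, with multiplicity,
of the prime factors larger than `p`) of the largest integer below `β * 10 ^ p`, the integer formed
by the first `p` decimal digits of `β` (for `0 < β ≤ 1`, non-terminating expansion).  For
`β = 1 / 9 = 0.111...` this is the repunit `R_p` itself, for every prime `p ≠ 3`.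
For Lebesgue almost every `β > 0` the number of primes `p ≤ n` with `W β p` prime is known to be
asymptotic to `(e ^ γ / log 10) log n`.  We prove that nevertheless every interval contains
uncountably many `β` for which `W β p` is prime for only finitely many primes `p`.  The proof uses
large gaps between primes.
-/

namespace Pool.Agent.Results.MP_adea1b_nt.FinitelyManyLengths

open Filter Topology Set

/-- The product, with multiplicity, of the prime factors of `m` that are larger than `p`. -/
def roughPart (p m : ℕ) : ℕ := (m.primeFactorsList.filter (fun r => p < r)).prod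

/-- The `p`-rough part of the largest integer below `β * 10 ^ p`. -/
noncomputable def W (β : ℝ) (p : ℕ) : ℕ := roughPart p (⌈β * 10 ^ p⌉₊ - 1)

lemma W_eq (β : ℝ) (p : ℕ) : W β p = Pool.Agent.R500.MH.W (fun y => ⌈y⌉₊ - 1) 10 β p := by
  unfold W Pool.Agent.R500.MH.W
  simp only [Nat.cast_ofNat]
  rfl

/-- **Every interval contains uncountably many `β` with finitely many prime values.** -/
theorem result :
    (∀ p : ℕ, p.Prime → p ≠ 3 → W (1 / 9) p = ∑ i ∈ Finset.range p, 10 ^ i) ∧
    (∀ u v : ℝ, 0 ≤ u → u < v →
      ¬ {β : ℝ | β ∈ Set.Ioo u v ∧ {p : ℕ | p.Prime ∧ (W β p).Prime}.Finite}.Countable) := by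
  refine ⟨fun p hp h3 => Pool.Agent.R500.MH.repunit hp h3, fun u v hu huv => ?_⟩
  have h := Pool.Agent.R500.MH.few Pool.Agent.R500.MH.rnd_ceil (b := 10) (by norm_num) hu huv
  simp only [← W_eq] at h
  exact h

end Pool.Agent.Results.MP_adea1b_nt.FinitelyManyLengths
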