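import Mathlib
import Pool.Agent.R500.MH.Generic
import Pool.Agent.R500.MH.Final
import Pool.Agent.R500.MH.Special

set_option autoImplicit false

/-!
# Decimal repunits: the first decimal digits of the topologically generic real number

For real `β > 0` and a prime `p` let `W β p` be the `p`-rough part (the product, with multiplicity,
of the prime factors larger than `p`) of the largest integer below `β * 10 ^ p`, the integer formed
by the first `p` decimal digits of `β` (for `0 < β ≤ 1`, non-terminating expansion).  For
`β = 1 / 9 = 0.111...` this is the repunit `R_p` itself, for every prime `p ≠ 3`.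
Let `M β n` be the number of primes `p ≤ n` with `W β p` prime.  For Lebesgue almost every `β > 0`
it is known that `M β n` is asymptotic to `(e ^ γ / log 10) log n`.  We prove that in the sense of
Baire category this fails in the strongest way: for comeagre many `β` the counting function is
smaller than `f n` for infinitely many `n`, for every function `f` tending to infinity; for
infinitely many `n` all the primes in `(2 log n, n]` are counted; and every `c ∈ [0, ∞)` is a limit
point of `M β n / log n`.
-/

namespace Pool.Agent.Results.MP_adea1b_nt.GenericDigits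

open Filter Topology Set

/-- The product, with multiplicity, of the prime factors of `m` that are larger than `p`. -/
def roughPart (p m : ℕ) : ℕ := (m.primeFactorsList.filter (fun r => p < r)).prod

/-- The `p`-rough part of the largest integer below `β * 10 ^ p`. -/
noncomputable def W (β : ℝ) (p : ℕ) : ℕ := roughPart p (⌈β * 10 ^ p⌉₊ - 1)

/-- The number of primes `p ≤ n` for which `W β p` is prime. -/
noncomputable def M (β : ℝ) (n : ℕ) : ℕ :=
  ((Finset.range (n + 1)).filter (fun p => p.Prime ∧ (W β p).Prime)).card

lemma W_eq (β : ℝ) (p : ℕ) : W β p = Pool.Agent.R500.MH.W (fun y => ⌈y⌉₊ - 1) 10 β p := by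
  unfold W Pool.Agent.R500.MH.W
  simp only [Nat.cast_ofNat]
  rfl

lemma M_eq (β : ℝ) (n : ℕ) : M β n = Pool.Agent.R500.MH.M (fun y => ⌈y⌉₊ - 1) 10 β n := by
  unfold M Pool.Agent.R500.MH.M
  simp only [W_eq]

/-- **The law fails for the topologically generic real number.** -/
theorem result :
    (∀ p : ℕ, p.Prime → p ≠ 3 → W (1 / 9) p = ∑ i ∈ Finset.range p, 10 ^ i) ∧
    (∀ f : ℕ → ℝ, Tendsto f atTop atTop → ∀ᶠ β : ℝ in residual ℝ, 0 < β →
      ∃ᶠ n : ℕ in atTop, (M β n : ℝ) < f n) ∧
    (∀ᶠ β : ℝ in residual ℝ, 0 < β →
      (∃ᶠ n : ℕ in atTop, ∀ p : ℕ, p.Prime → 2 * Real.log n < p → p ≤ n → (W β p).Prime) ∧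
      (∀ ε : ℝ, 0 < ε → ∃ᶠ n : ℕ in atTop, (1 - ε) * Nat.primeCounting n < M β n) ∧
      (∀ c : ℝ, 0 ≤ c → MapClusterPt c atTop (fun n : ℕ => (M β n : ℝ) / Real.log n))) := by
  have h := Pool.Agent.R500.MH.generic_law Pool.Agent.R500.MH.rnd_ceil (b := 10) (by norm_num)
  simp only [← M_eq, ← W_eq] at h
  exact ⟨fun p hp h3 => Pool.Agent.R500.MH.repunit hp h3, h.1, h.2⟩

end Pool.Agent.Results.MP_adea1b_nt.GenericDigits
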