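import Mathlib
import Pool.Agent.R500.MH.Final
import Pool.Agent.R500.MH.Special

set_option autoImplicit false

/-!
# Decimal repunits: decimal expansions with a positive proportion of prime values

For real `β > 0` and a prime `p` let `W β p` be the `p`-rough part (the product, with multiplicity,
of the prime factors larger than `p`) of the largest integer below `β * 10 ^ p`, the integer formed
by the first `p` decimal digits of `β` (for `0 < β ≤ 1`, non-terminating expansion).  For
`β = 1 / 9 = 0.111...` this is the repunit `R_p` itself, for every prime `p ≠ 3`.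
Let `M β n` be the number of primes `p ≤ n` with `W β p` prime.  For Lebesgue almost every `β > 0`
it is known that `M β n` is asymptotic to `(e ^ γ / log 10) log n`.  We prove that nevertheless, for
`0 < s < t < 1` and a suitable `c > 0`, in every interval the set of the `β` with
`M β n ≥ c π(n)` for all large `n` and `limsup M β n / π(n) ≥ 1 - t` has Hausdorff dimension at
least `s`; in particular the set of the `β` for which a positive proportion of all primes is counted,
at every large scale, has Hausdorff dimension one in every interval.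
-/

namespace Pool.Agent.Results.MP_adea1b_nt.PositiveDensity

open Filter Topology Set

/-- The product, with multiplicity, of the prime factors of `m` that are larger than `p`. -/
def roughPart (p m : ℕ) : ℕ := (m.primeFactorsList.filter (fun r => p < r)).prod

/-- The `p`-rough part of the largest integer below `β * 10 ^ p`. -/
noncomputable def W (β : ℝ) (p : ℕ) : ℕ := roughPart p (⌈β * 10 ^ p⌉₊ - 1)

/-- The number of primes `p ≤ n` for which `W β p` is prime. -/
noncomputable def M (β : ℝ) (n : ℕ) : ℕ :=
  ((Finset.range (n + 1)).filter (fun p => p.Prime ∧ (W β p).Prime)).card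

lemma W_eq (β : ℝ) (p : ℕ) : W β p = Pool.Agent.R500.MH.W (fun y => ⌈y⌉₊ - 1) 10 β p := by
  unfold W Pool.Agent.R500.MH.W
  simp only [Nat.cast_ofNat]
  rfl

lemma M_eq (β : ℝ) (n : ℕ) : M β n = Pool.Agent.R500.MH.M (fun y => ⌈y⌉₊ - 1) 10 β n := by
  unfold M Pool.Agent.R500.MH.M
  simp only [W_eq]

/-- **A positive proportion of all primes: the Hausdorff dimension.** -/
theorem result :
    (∀ p : ℕ, p.Prime → p ≠ 3 → W (1 / 9) p = ∑ i ∈ Finset.range p, 10 ^ i) ∧
    (∀ s t : ℝ, 0 < s → s < t → t < 1 → ∃ c : ℝ, 0 < c ∧ ∀ u v : ℝ, 0 ≤ u → u < v →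
      ENNReal.ofReal s ≤ dimH {β : ℝ | β ∈ Set.Ioo u v ∧
        (∀ᶠ n : ℕ in atTop, c * Nat.primeCounting n ≤ M β n) ∧
        (∀ ε : ℝ, 0 < ε → ∃ᶠ n : ℕ in atTop, (1 - t - ε) * Nat.primeCounting n < M β n)}) ∧
    (∀ t : ℝ, 0 < t → t ≤ 1 → ∀ u v : ℝ, 0 ≤ u → u < v →
      ENNReal.ofReal t ≤ dimH {β : ℝ | β ∈ Set.Ioo u v ∧
        (∃ c : ℝ, 0 < c ∧ ∀ᶠ n : ℕ in atTop, c * Nat.primeCounting n ≤ M β n) ∧
        (∀ ε : ℝ, 0 < ε → ∃ᶠ n : ℕ in atTop, (1 - t - ε) * Nat.primeCounting n < M β n)}) := by
  refine ⟨fun p hp h3 => Pool.Agent.R500.MH.repunit hp h3, fun s t hs hst ht => ?_,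
    fun t _ ht1 u v hu huv => ?_⟩
  · have h := Pool.Agent.R500.MH.dim_density Pool.Agent.R500.MH.rnd_ceil (b := 10) (by norm_num)
      hs hst ht
    simp only [← M_eq] at h
    exact h
  · have h := Pool.Agent.R500.MH.dim_all Pool.Agent.R500.MH.rnd_ceil (b := 10) (by norm_num)
      ht1 hu huv
    simp only [← M_eq] at h
    exact h

end Pool.Agent.Results.MP_adea1b_nt.PositiveDensity
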