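import Mathlib
import Pool.Agent.R303.BA.Dig
import Pool.Agent.R303.BA.Spec

set_option autoImplicit false

/-!
# Decimal repunits and the last digits of random 10-adic integers

A sequence `x 0, x 1, …` of decimal digits is a 10-adic integer `… x 2 x 1 x 0`; its residue modulo
`10 ^ p` is the integer with the digits `x (p - 1) … x 0`.  For an integer polynomial `f` and a
prime `p` let `W f x p` be the `p`-rough part (the product, with multiplicity, of the prime factors
larger than `p`) of the residue of `f (… x 1 x 0)` modulo `10 ^ p`.  For `x = … 111 (= - 1 / 9)` and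
`f = X` this is the repunit `R_p`, for every prime `p ≠ 3`.  The starting results of this problem are
about the FIRST digits of a random real number `β` (near `β = 1 / 9`); here we treat the last digits,
and all permutation polynomials simultaneously.

Let the digits be random, independent and uniformly distributed.  Almost surely, for ALL integer
polynomials `f` which permute the residues modulo every power of `10` (for instance `k X + m` with
`k` prime to `10`) and for which `f (x 0)` is prime to `10`, the number of primes `p ≤ n` with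
`W f x p` prime is `(e ^ γ / log 10) log n + O((log n) ^ (1/2) (log log n) ^ (5/2))`; for every set
`S` the same holds along `S`, with the sum `V S n` of `log p / p` over the primes `p ≤ n` in `S` in
the place of `log n`, and infinitely many or finitely many `p` in `S` give a prime according as
`V S n` is unbounded or bounded.
-/

namespace Pool.Agent.Results.MP_adea1b_nt.RandomLastDigits

open Filter Topology MeasureTheory ProbabilityTheory Asymptotics

/-- The product, with multiplicity, of the prime factors of `m` that are larger than `p`. -/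
def roughPart (p m : ℕ) : ℕ := (m.primeFactorsList.filter (fun r => p < r)).prod

/-- The integer with the decimal digits `x (n - 1) … x 0`. -/
def num (x : ℕ → Fin 10) (n : ℕ) : ℕ := ∑ i ∈ Finset.range n, (x i : ℕ) * 10 ^ i

/-- The `p`-rough part of the residue in `[0, 10 ^ p)` of `f (x (p - 1) … x 0)` modulo `10 ^ p`. -/
def W (f : Polynomial ℤ) (x : ℕ → Fin 10) (p : ℕ) : ℕ :=
  roughPart p (f.eval (num x p : ℤ) % 10 ^ p).toNat

open Classical in
/-- The number of primes `p ≤ n` in the set `S` for which `W f x p` is prime. -/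
noncomputable def M (S : Set ℕ) (f : Polynomial ℤ) (x : ℕ → Fin 10) (n : ℕ) : ℕ :=
  ((Finset.range (n + 1)).filter (fun p => p.Prime ∧ p ∈ S ∧ (W f x p).Prime)).card

open Classical in
/-- The sum of `log p / p` over the primes `p ≤ n` in the set `S`. -/
noncomputable def V (S : Set ℕ) (n : ℕ) : ℝ :=
  ∑ p ∈ (Finset.range (n + 1)).filter (fun p => p.Prime ∧ p ∈ S), Real.log p / p

/-- The integer polynomial `f` permutes the residues modulo every power of `10`. -/
def Permuting (f : Polynomial ℤ) : Prop :=
  ∀ (n : ℕ) (m m' : ℤ), (10 : ℤ) ^ n ∣ f.eval m - f.eval m' → (10 : ℤ) ^ n ∣ m - m'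

lemma V_eq (S : Set ℕ) (n : ℕ) : V S n = Pool.Agent.TH888.R.VS S n := by
  classical
  unfold V Pool.Agent.TH888.R.VS
  rw [Finset.sum_filter]
  refine Finset.sum_congr rfl fun p _ => ?_
  by_cases h : p.Prime ∧ p ∈ S
  · rw [if_pos h, if_pos ⟨h.2, h.1⟩]
    rfl
  · rw [if_neg h, if_neg fun h1 => h ⟨h1.2, h1.1⟩]

/-- the residues of `f (x)` -/
def res (f : Polynomial ℤ) (x : ℕ → Fin 10) (n : ℕ) : ℕ := (f.eval (num x n : ℤ) % 10 ^ n).toNat

lemma M_eq (S : Set ℕ) (f : Polynomial ℤ) (x : ℕ → Fin 10) (n : ℕ) :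
    M S f x n = Pool.Agent.TH888.R.cS S (fun p => res f x p) n := by
  classical
  unfold M Pool.Agent.TH888.R.cS
  rfl

lemma W_repunit {p : ℕ} (hp : p.Prime) (h3 : p ≠ 3) :
    W Polynomial.X (fun _ => 1) p = ∑ i ∈ Finset.range p, 10 ^ i := by
  set R := ∑ i ∈ Finset.range p, 10 ^ i with hR
  have hnum : num (fun _ => 1) p = R := by
    unfold num
    rw [hR]
    refine Finset.sum_congr rfl fun i _ => ?_
    simp
  have hgeom : R * 9 + 1 = 10 ^ p := by
    have h := Nat.geomSum_eq (m := 10) (by norm_num) p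
    have h1 : 9 ∣ 10 ^ p - 1 := by
      have := Nat.sub_dvd_pow_sub_pow 10 1 p
      simpa using this
    have h2 : 1 ≤ 10 ^ p := Nat.one_le_pow _ _ (by norm_num)
    have h4 : R = (10 ^ p - 1) / 9 := h
    omega
  have hlt : R < 10 ^ p := by omega
  unfold W
  have h1 : ((Polynomial.X : Polynomial ℤ).eval ((num (fun _ => 1) p : ℕ) : ℤ) % 10 ^ p).toNat = R := by
    rw [Polynomial.eval_X, hnum, Int.emod_eq_of_lt (by positivity) (by exact_mod_cast hlt)]
    exact Int.toNat_natCast R
  rw [h1]
  refine Pool.Agent.R303.BA.rough_geom (a := 10) (c := 1) isCoprime_one_right (by norm_num)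
    (by norm_num) hp ?_ ?_
  · intro h
    have h5 : p ∣ 3 ^ 2 := by
      have h6 : (p : ℤ) ∣ ((9 : ℕ) : ℤ) := by simpa using h
      exact_mod_cast h6
    exact h3 ((Nat.prime_dvd_prime_iff_eq hp Nat.prime_three).1 (hp.dvd_of_dvd_pow h5))
  · have : (R : ℤ) * 9 + 1 = 10 ^ p := by exact_mod_cast hgeom
    rw [one_pow]
    linarith

/-- the polynomials `k X + m`, `k` prime to `10`, permute the residues -/
lemma permuting_linear {k m : ℤ} (hk : IsCoprime k 10) :
    Permuting (Polynomial.C k * Polynomial.X + Polynomial.C m) := by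
  intro n a a' h
  simp only [Polynomial.eval_add, Polynomial.eval_mul, Polynomial.eval_C, Polynomial.eval_X] at h
  have h1 : (10 : ℤ) ^ n ∣ k * (a - a') := by
    have e : k * a + m - (k * a' + m) = k * (a - a') := by ring
    rwa [e] at h
  exact (hk.symm.pow_left (m := n)).dvd_of_dvd_mul_left h1

/-- Random decimal digits: the law for the last digits, for all permutation polynomials
simultaneously; the numbers of the special point `… 111` are the repunits. -/
theorem result :
    (∀ p : ℕ, p.Prime → p ≠ 3 →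
      W Polynomial.X (fun _ => 1) p = ∑ i ∈ Finset.range p, 10 ^ i) ∧
    (∀ k m : ℤ, IsCoprime k 10 → Permuting (Polynomial.C k * Polynomial.X + Polynomial.C m)) ∧
    ∀ (Ω : Type) [MeasurableSpace Ω] (P : Measure Ω) [IsProbabilityMeasure P] (x : ℕ → Ω → Fin 10),
      (∀ i, Measurable (x i)) → iIndepFun x P → (∀ i a, P.real {ω | x i ω = a} = 1 / 10) →
      (∀ᵐ ω ∂P, ∀ f : Polynomial ℤ, Permuting f → IsCoprime (f.eval ((x 0 ω : ℕ) : ℤ)) 10 →
        (fun n : ℕ => (M Set.univ f (fun i => x i ω) n : ℝ) -
          Real.exp Real.eulerMascheroniConstant / Real.log 10 * Real.log n) =O[atTop]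
        (fun n : ℕ => Real.sqrt (Real.log n) * (Real.log (Real.log n)) ^ ((5 : ℝ) / 2))) ∧
      (∀ S : Set ℕ, Tendsto (V S) atTop atTop → ∀ᵐ ω ∂P, ∀ f : Polynomial ℤ, Permuting f →
        IsCoprime (f.eval ((x 0 ω : ℕ) : ℤ)) 10 →
        {p : ℕ | p.Prime ∧ p ∈ S ∧ (W f (fun i => x i ω) p).Prime}.Infinite ∧
        (fun n : ℕ => (M S f (fun i => x i ω) n : ℝ) -
          Real.exp Real.eulerMascheroniConstant / Real.log 10 * V S n) =O[atTop]
        (fun n : ℕ => Real.sqrt (V S n * Real.log (Real.log n)) *
          (Real.log (V S n * Real.log (Real.log n))) ^ 2)) ∧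
      (∀ S : Set ℕ, ¬ Tendsto (V S) atTop atTop → ∀ᵐ ω ∂P, ∀ f : Polynomial ℤ, Permuting f →
        IsCoprime (f.eval ((x 0 ω : ℕ) : ℤ)) 10 →
        {p : ℕ | p.Prime ∧ p ∈ S ∧ (W f (fun i => x i ω) p).Prime}.Finite) := by
  have hV : ∀ S, V S = Pool.Agent.TH888.R.VS S := fun S => funext fun n => V_eq S n
  refine ⟨fun p hp h3 => W_repunit hp h3, fun k m hk => permuting_linear hk, ?_⟩
  intro Ω _ P _ x hm hi hu
  have hfull := Pool.Agent.R303.BA.full_digits (b := 10) hm hi (by simpa using hu)
  have hpt : ∀ S : Set ℕ, ∀ᵐ ω ∂P, ∀ f : Polynomial ℤ, Permuting f →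
      IsCoprime (f.eval ((x 0 ω : ℕ) : ℤ)) 10 →
      Pool.Agent.TH888.R.Pt (fun p => res f (fun i => x i ω) p)
        (Real.exp Real.eulerMascheroniConstant / Real.log 10) S := by
    intro S
    haveI : Countable (Polynomial ℤ) :=
      Cardinal.mk_le_aleph0_iff.1 (Polynomial.cardinalMk_le_max.trans (by simp))
    rw [ae_all_iff]
    intro f
    by_cases hf : Permuting f
    · have hperm := Pool.Agent.R303.BA.perm_of_int (b := 10) (by norm_num) (f := fun m => f.eval m)
        (fun n m m' h => h.trans (Polynomial.sub_dvd_eval_sub m m' f))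
        (fun n m m' h => by
          have := hf n m m' (by exact_mod_cast h)
          exact_mod_cast this)
      have h := Pool.Agent.R303.BA.pt_perm (b := 10) (by norm_num) hfull hperm S
      filter_upwards [h] with ω hω _ hc
      have e : ∀ n, ((f.eval ((Pool.Agent.R303.BA.num 10 (fun i => x i ω) n : ℕ) : ℤ)) %
          ((10 : ℕ) : ℤ) ^ n).toNat = res f (fun i => x i ω) n := fun n => rfl
      have h1 := hω (by
        rw [pow_one]
        have e1 : Pool.Agent.R303.BA.num 10 (fun i => x i ω) 1 = (x 0 ω : ℕ) := by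
          simp [Pool.Agent.R303.BA.num]
        rw [e1]
        have h2 : (0 : ℤ) ≤ f.eval ((x 0 ω : ℕ) : ℤ) % ((10 : ℕ) : ℤ) := Int.emod_nonneg _ (by norm_num)
        rw [← Nat.isCoprime_iff_coprime, Int.toNat_of_nonneg h2]
        have h3 : f.eval ((x 0 ω : ℕ) : ℤ) % ((10 : ℕ) : ℤ) =
            f.eval ((x 0 ω : ℕ) : ℤ) + 10 * (-(f.eval ((x 0 ω : ℕ) : ℤ) / 10)) := by
          rw [Int.emod_def]; push_cast; ring
        rw [h3]
        have h4 := hc.add_mul_left_left (-(f.eval ((x 0 ω : ℕ) : ℤ) / 10))
        exact_mod_cast h4)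
      simp only [e] at h1
      simpa only [Nat.cast_ofNat] using h1
    · exact Eventually.of_forall fun ω h => absurd h hf
  refine ⟨?_, fun S hS => ?_, fun S hS => ?_⟩
  · filter_upwards [hpt Set.univ] with ω hω f hf hc
    obtain ⟨B, hB, h⟩ := (hω f hf hc).law Pool.Agent.TH888.R.VS_univ_tendsto
    simp only [M_eq]
    exact Pool.Agent.TH888.R.bigO_all hB h
  · rw [hV] at hS ⊢
    filter_upwards [hpt S] with ω hω f hf hc
    refine ⟨(hω f hf hc).inf hS, ?_⟩
    obtain ⟨B, hB, h⟩ := (hω f hf hc).law hS
    simp only [M_eq]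
    exact Pool.Agent.TH888.R.bigO_set hB hS h
  · rw [hV] at hS
    filter_upwards [hpt S] with ω hω f hf hc
    exact (hω f hf hc).fin hS

end Pool.Agent.Results.MP_adea1b_nt.RandomLastDigits
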